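import Mathlib

set_option autoImplicit false

namespace Pool.Agent.Results.MP_c6d0b8_gt.Main

open Set Filter MeasureTheory

def hist {α : Type} (F : ℕ → α) : ℕ → List α
  | 0 => []
  | n + 1 => F n :: hist F n

variable (X : Type) [TopologicalSpace X]

def Win (P : Set X → Prop) (W : (ℕ → Set X) → Prop) : Prop :=
  ∃ σ : List (Set X) → Set X, (∀ h, P (σ h)) ∧
    ∀ U : ℕ → Set X, (∀ n, IsOpen (U n) ∧ σ (hist U n) ⊆ U n) → W U

def Pre (P : Set X → Prop) (W : (ℕ → Set X) → Prop) : Prop :=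
  ∃ A : ℕ → Set X, (∀ n, P (A n)) ∧ ∀ U : ℕ → Set X, (∀ n, IsOpen (U n) ∧ A n ⊆ U n) → W U

def L : Type := ℝ

def z : L := (0 : ℝ)

instance : TopologicalSpace L where
  IsOpen U := z ∈ U → Uᶜ.Countable
  isOpen_univ := by simp
  isOpen_inter U V h h' hz := by
    rw [compl_inter]
    exact (h hz.1).union (h' hz.2)
  isOpen_sUnion S h := fun ⟨U, h1, h2⟩ =>
    (h U h1 h2).mono (compl_subset_compl.2 (subset_sUnion_of_mem h1))

lemma clopen {S : Set L} (h : S.Countable) (h' : z ∉ S) : IsClopen S :=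
  ⟨⟨fun _ => by simpa⟩, fun h => (h' h).elim⟩

instance : T2Space L := ⟨fun a b h => by
  by_cases h1 : a = z
  · have := clopen (countable_singleton b) (h1 ▸ h)
    exact ⟨_, _, this.compl.2, this.2, h, rfl, disjoint_compl_left⟩
  · have := clopen (countable_singleton a) (Ne.symm h1)
    exact ⟨_, _, this.2, this.compl.2, rfl, h.symm, disjoint_compl_right⟩⟩

lemma fin {K : Set L} (h : IsCompact K) : K.Finite := by
  refine Finite.subset (Finite.insert z (s := K \ {z}) (by_contra fun h1 => ?_)) (by grind)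
  obtain ⟨S, h2, h4, h3⟩ := Infinite.exists_subset_countable_infinite h1
  refine h3 ((h.of_isClosed_subset (clopen h4 fun h => (h2 h).2 rfl).1 (h2.trans sdiff_subset)).finite
    (isDiscrete_iff_forall_mem_exists_isOpen.2 fun x hx => ⟨{x}, (clopen (countable_singleton x)
      fun e => (h2 hx).2 (Eq.symm e)).2, inter_eq_self_of_subset_left (singleton_subset_iff.2 hx)⟩))

lemma mem_hist {α : Type} (F : ℕ → α) (n : ℕ) :
    (hist F n).length = n ∧ ∀ m < n, F m ∈ hist F n := by
  induction n with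
  | zero => exact ⟨rfl, nofun⟩
  | succ n ih => exact ⟨congrArg (· + 1) ih.1, fun m h => (Nat.lt_succ_iff_lt_or_eq.1 h).elim
      (fun h => List.mem_cons_of_mem _ (ih.2 m h)) fun h => h ▸ List.mem_cons_self⟩

theorem result : ∃ (X : Type) (_ : TopologicalSpace X), T2Space X ∧
    Win X (fun K => IsCompact K ∧ K.Nonempty) (fun U => ∀ K, IsCompact K → K.Nonempty → ∃ n, K ⊆ U n) ∧
    ¬ Win X Set.Finite (fun U => ⋃ n, U n = univ) ∧
    ¬ Pre X (fun K => IsCompact K ∧ K.Nonempty)
      (fun U => ∀ K, IsCompact K → K.Nonempty → ∃ n, K ⊆ U n) := by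
  have hK {K : Set (L ⊕ unitInterval)} (h : IsCompact K) : (Sum.inl ⁻¹' K).Finite :=
    fin (Topology.IsClosedEmbedding.inl.isCompact_preimage h)
  refine ⟨L ⊕ unitInterval, inferInstance, inferInstance, ?_, fun ⟨σ, h1, h2⟩ => ?_,
    fun ⟨A, h1, h2⟩ => ?_⟩
  · have h1 (V : Set (L ⊕ unitInterval)) : ∃ e : ℕ → L, IsOpen V → .inl z ∈ V →
        (Sum.inl ⁻¹' V)ᶜ ⊆ range e := by
      by_cases h : (Sum.inl ⁻¹' V)ᶜ.Countable
      · obtain ⟨e, h⟩ := (h.insert z).exists_eq_range (insert_nonempty _ _)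
        exact ⟨e, fun _ _ => h ▸ subset_insert _ _⟩
      · exact ⟨fun _ => z, fun h1 h2 => (h (h1.preimage continuous_inl h2)).elim⟩
    choose e he using h1
    refine ⟨fun h => range .inr ∪ .inl '' insert z (⋃ V ∈ h, e V '' Iio h.length), fun h =>
      ⟨(isCompact_range continuous_inr).union (((h.finite_toSet.biUnion fun _ _ =>
        (finite_Iio _).image _).insert z).image _).isCompact, _, Or.inl ⟨0, rfl⟩⟩,
      fun U hU K h _ => ?_⟩
    obtain ⟨n, hn⟩ := ((eventually_all_finite (hK h)).2 fun x _ =>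
      show ∀ᶠ n in atTop, .inl x ∈ U n by
        by_cases h2 : ∀ n, .inl x ∈ U n
        · exact .of_forall h2
        obtain ⟨m, h2⟩ := not_forall.1 h2
        obtain ⟨j, rfl⟩ := he _ (hU m).1 ((hU m).2 (Or.inr ⟨z, Or.inl rfl, rfl⟩)) h2
        filter_upwards [eventually_gt_atTop m, eventually_gt_atTop j] with n h3 h4
        exact (hU n).2 (Or.inr ⟨_, Or.inr (mem_biUnion ((mem_hist U n).2 m h3)
          ⟨j, (mem_hist U n).1.symm ▸ h4, rfl⟩), rfl⟩)).exists
    exact ⟨n, fun | .inl x, h => hn x h | .inr x, _ => (hU n).2 (Or.inl ⟨x, rfl⟩)⟩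
  · obtain ⟨ε, h3, h4⟩ := ENNReal.exists_pos_sum_of_countable one_ne_zero ℕ
    choose u h5 h6 h7 using fun n h => (Sum.inr ⁻¹' σ h : Set unitInterval).exists_isOpen_lt_of_lt
      (μ := volume) (ε n) (by
        simpa [((h1 h).preimage Sum.inr_injective.injOn).measure_zero] using h3 n)
    let l : ℕ → List (Set (L ⊕ unitInterval)) :=
      Nat.rec [] fun n h => (range .inl ∪ .inr '' u n h) :: h
    have h8 (n : ℕ) : hist (fun n => range .inl ∪ .inr '' u n (l n)) n = l n := by
      induction n with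
      | zero => rfl
      | succ n ih => exact congrArg _ ih
    have h9 := h2 _ fun n => ⟨isOpen_range_inl.union (isOpenMap_inr _ (h6 n (l n))), fun
      | .inl x, _ => Or.inl ⟨x, rfl⟩
      | .inr x, h => Or.inr ⟨x, h5 n _ (h8 n ▸ h), rfl⟩⟩
    refine h4.not_ge (measure_univ (μ := (volume : Measure unitInterval)).symm.trans_le
      ((measure_mono fun x _ => ?_).trans ((measure_iUnion_le fun n => u n (l n)).trans
        (ENNReal.tsum_le_tsum fun n => (h7 n _).le))))
    simpa using eq_univ_iff_forall.1 h9 (.inr x)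
  have : Uncountable L := inferInstanceAs (Uncountable ℝ)
  obtain ⟨x, hx⟩ : ∃ x, x ∉ ⋃ n, Sum.inl ⁻¹' A n := by_contra fun h => not_countable_univ
    ((countable_iUnion fun n => (hK (h1 n).1).countable).mono fun x _ => by_contra fun h' => h ⟨x, h'⟩)
  obtain ⟨_, h⟩ := h2 (fun _ => {.inl x}ᶜ) (fun n => ⟨isOpen_compl_singleton, fun _ h e =>
    hx (mem_iUnion.2 ⟨n, by cases e; exact h⟩)⟩) _ isCompact_singleton (singleton_nonempty _)
  exact h rfl rfl

end Pool.Agent.Results.MP_c6d0b8_gt.Main
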